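import Pool.Agent.PNY.RegDefs

set_option linter.all false

/-!
# Generic heights near given heights
-/

namespace Pool.Agent.PNY

open Topology Filter

/-- the coplanarity form of four points -/
noncomputable def Fo9 (a b c p : ℝ × ℝ) : ((ℝ × ℝ) → ℝ) →ₗ[ℝ] ℝ :=
  D a b c • LinearMap.proj p - D p b c • LinearMap.proj a - D a p c • LinearMap.proj b -
    D a b p • LinearMap.proj c

theorem Fo9_apply (a b c p : ℝ × ℝ) (g : (ℝ × ℝ) → ℝ) :
    Fo9 a b c p g = D a b c * g p - D p b c * g a - D a p c * g b - D a b p * g c := by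
  simp [Fo9]

theorem Fo9_af (a b c p : ℝ × ℝ) (l : ℝ × ℝ × ℝ) :
    D a b c * af l p - D p b c * af l a - D a p c * af l b - D a b p * af l c = 0 := by
  unfold af D; ring

theorem Fo9_open (a b c p : ℝ × ℝ) : IsOpen {g : (ℝ × ℝ) → ℝ | Fo9 a b c p g ≠ 0} := by
  have h : Continuous fun g : (ℝ × ℝ) → ℝ => Fo9 a b c p g := by
    have e : (fun g : (ℝ × ℝ) → ℝ => Fo9 a b c p g) =
        fun g => D a b c * g p - D p b c * g a - D a p c * g b - D a b p * g c := by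
      funext g; exact Fo9_apply a b c p g
    rw [e]
    fun_prop
  exact isOpen_ne_fun h continuous_const

theorem Fo9_dense {a b c p : ℝ × ℝ} (h1 : p ≠ a) (h2 : p ≠ b) (h3 : p ≠ c) (h : D a b c ≠ 0) :
    Dense {g : (ℝ × ℝ) → ℝ | Fo9 a b c p g ≠ 0} := by
  classical
  have hs : LinearMap.ker (Fo9 a b c p) ≠ ⊤ := by
    intro ht
    have h4 : (Pi.single p 1 : (ℝ × ℝ) → ℝ) ∈ LinearMap.ker (Fo9 a b c p) := by
      rw [ht]; trivial
    rw [LinearMap.mem_ker, Fo9_apply, Pi.single_eq_same, Pi.single_eq_of_ne h1.symm,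
      Pi.single_eq_of_ne h2.symm, Pi.single_eq_of_ne h3.symm] at h4
    apply h
    linarith
  have h5 : interior ((LinearMap.ker (Fo9 a b c p) : Submodule ℝ ((ℝ × ℝ) → ℝ)) :
      Set ((ℝ × ℝ) → ℝ)) = ∅ := by
    by_contra hne
    exact hs (Submodule.eq_top_of_nonempty_interior' _ (Set.nonempty_iff_ne_empty.2 hne))
  exact interior_eq_empty_iff_dense_compl.1 h5

/-- being an edge is stable under small changes of the heights -/
theorem Ed.eventually9 {P : Finset (ℝ × ℝ)} {g : ℝ × ℝ → ℝ} {a b : ℝ × ℝ} (h : Ed P g a b) :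
    ∀ᶠ g' in 𝓝 g, Ed P g' a b := by
  obtain ⟨ha, hb, hab, l, h1, h2, h3⟩ := h
  obtain ⟨m, hma, hmb⟩ : ∃ m : ℝ × ℝ × ℝ, af m a = 0 ∧ af m b = 1 := by
    set N := (b.1 - a.1) ^ 2 + (b.2 - a.2) ^ 2 with hN
    have hNpos : N ≠ 0 := by
      intro h0
      have e1 : b.1 - a.1 = 0 := by nlinarith [sq_nonneg (b.1 - a.1), sq_nonneg (b.2 - a.2)]
      have e2 : b.2 - a.2 = 0 := by nlinarith [sq_nonneg (b.1 - a.1), sq_nonneg (b.2 - a.2)]
      exact hab (Prod.ext (by linarith) (by linarith))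
    refine ⟨(-((b.1 - a.1) * a.1 + (b.2 - a.2) * a.2) / N, (b.1 - a.1) / N, (b.2 - a.2) / N),
      ?_, ?_⟩
    · unfold af
      field_simp
      ring
    · unfold af
      field_simp
      rw [hN]; ring
  -- the new support function
  have key : ∀ g' : ℝ × ℝ → ℝ, ∃ l' : ℝ × ℝ × ℝ, ∀ p,
      af l' p = af l p + (g' a - g a) + ((g' b - g b) - (g' a - g a)) * af m p := by
    intro g'
    refine ⟨l + ((g' a - g a, 0, 0) : ℝ × ℝ × ℝ) + ((g' b - g b) - (g' a - g a)) • m, ?_⟩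
    intro p
    rw [af_add, af_add, af_smul]
    simp [af]
  have hev : ∀ᶠ g' in 𝓝 g, ∀ p ∈ P, p ≠ a → p ≠ b →
      g' p < af l p + (g' a - g a) + ((g' b - g b) - (g' a - g a)) * af m p := by
    rw [Filter.eventually_all_finset]
    intro p hp
    by_cases hpa : p = a
    · exact Filter.Eventually.of_forall fun g' h => absurd hpa h
    by_cases hpb : p = b
    · exact Filter.Eventually.of_forall fun g' _ h => absurd hpb h
    have hc : Continuous fun g' : ℝ × ℝ → ℝ =>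
        af l p + (g' a - g a) + ((g' b - g b) - (g' a - g a)) * af m p - g' p := by fun_prop
    have hg : 0 < af l p + (g a - g a) + ((g b - g b) - (g a - g a)) * af m p - g p := by
      have := h3 p hp hpa hpb
      simp only [sub_self, zero_mul, add_zero]
      linarith
    have hlt : ∀ᶠ g' in 𝓝 g, (0 : ℝ) <
        af l p + (g' a - g a) + ((g' b - g b) - (g' a - g a)) * af m p - g' p :=
      hc.continuousAt.eventually (lt_mem_nhds hg)
    filter_upwards [hlt] with g' hg' _ _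
    linarith
  filter_upwards [hev] with g' hg'
  obtain ⟨l', hl'⟩ := key g'
  refine ⟨ha, hb, hab, l', ?_, ?_, ?_⟩
  · rw [hl', hma, h1]; ring
  · rw [hl', hmb, h2]; ring
  · intro p hp hpa hpb
    rw [hl']
    exact hg' p hp hpa hpb

/-- **generic heights** -/
theorem gen_exists (P : Finset (ℝ × ℝ)) (g : ℝ × ℝ → ℝ) (G : ℝ × ℝ → ℝ × ℝ → Prop)
    (hG : ∀ a b, G a b → Ed P g a b) :
    ∃ g', (∀ a b, G a b → Ed P g' a b) ∧ Gen P g' := by
  classical
  -- all the pairs at once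
  have h1 : ∀ᶠ g' in 𝓝 g, ∀ a ∈ P, ∀ b ∈ P, G a b → Ed P g' a b := by
    rw [Filter.eventually_all_finset]
    intro a ha
    rw [Filter.eventually_all_finset]
    intro b hb
    by_cases h : G a b
    · filter_upwards [(hG a b h).eventually9] with g' hg' _
      exact hg'
    · exact Filter.Eventually.of_forall fun g' h' => absurd h' h
  -- all the coplanarity conditions at once
  have h2 : ∀ S : Finset ((ℝ × ℝ) × (ℝ × ℝ) × (ℝ × ℝ) × (ℝ × ℝ)),
      (∀ x ∈ S, x.2.2.2 ≠ x.1 ∧ x.2.2.2 ≠ x.2.1 ∧ x.2.2.2 ≠ x.2.2.1 ∧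
        D x.1 x.2.1 x.2.2.1 ≠ 0) →
      IsOpen {g : (ℝ × ℝ) → ℝ | ∀ x ∈ S, Fo9 x.1 x.2.1 x.2.2.1 x.2.2.2 g ≠ 0} ∧
      Dense {g : (ℝ × ℝ) → ℝ | ∀ x ∈ S, Fo9 x.1 x.2.1 x.2.2.1 x.2.2.2 g ≠ 0} := by
    intro S
    induction S using Finset.induction_on with
    | empty =>
      intro _
      have e : {g : (ℝ × ℝ) → ℝ | ∀ x ∈ (∅ : Finset ((ℝ × ℝ) × (ℝ × ℝ) × (ℝ × ℝ) × (ℝ × ℝ))),
          Fo9 x.1 x.2.1 x.2.2.1 x.2.2.2 g ≠ 0} = Set.univ := by
        ext g; simp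
      rw [e]
      exact ⟨isOpen_univ, dense_univ⟩
    | insert x S hx ih =>
      intro hS
      obtain ⟨i1, i2⟩ := ih fun y hy => hS y (Finset.mem_insert_of_mem hy)
      obtain ⟨j1, j2, j3, j4⟩ := hS x (Finset.mem_insert_self _ _)
      have e : {g : (ℝ × ℝ) → ℝ | ∀ y ∈ insert x S, Fo9 y.1 y.2.1 y.2.2.1 y.2.2.2 g ≠ 0} =
          {g : (ℝ × ℝ) → ℝ | Fo9 x.1 x.2.1 x.2.2.1 x.2.2.2 g ≠ 0} ∩
          {g : (ℝ × ℝ) → ℝ | ∀ y ∈ S, Fo9 y.1 y.2.1 y.2.2.1 y.2.2.2 g ≠ 0} := by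
        ext g
        simp only [Set.mem_setOf_eq, Set.mem_inter_iff, Finset.mem_insert, forall_eq_or_imp]
      rw [e]
      refine ⟨(Fo9_open _ _ _ _).inter i1, ?_⟩
      exact Dense.inter_of_isOpen_left (Fo9_dense j1 j2 j3 j4) i2 (Fo9_open _ _ _ _)
  set S : Finset ((ℝ × ℝ) × (ℝ × ℝ) × (ℝ × ℝ) × (ℝ × ℝ)) :=
    (P ×ˢ P ×ˢ P ×ˢ P).filter fun x => x.2.2.2 ≠ x.1 ∧ x.2.2.2 ≠ x.2.1 ∧ x.2.2.2 ≠ x.2.2.1 ∧
        D x.1 x.2.1 x.2.2.1 ≠ 0 with hSd
  have h3 := (h2 S fun x hx => (Finset.mem_filter.1 hx).2).2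
  obtain ⟨g', hg', hg''⟩ := h3.inter_nhds_nonempty h1
  refine ⟨g', ?_, ?_⟩
  · intro a b h
    obtain ⟨ha, hb, -⟩ := hG a b h
    exact hg'' a ha b hb h
  · intro a ha b hb c hc p hp hpa hpb hpc hD l la lb lc lp
    have hx : (a, b, c, p) ∈ S := by
      rw [hSd, Finset.mem_filter]
      exact ⟨Finset.mem_product.2 ⟨ha, Finset.mem_product.2 ⟨hb, Finset.mem_product.2 ⟨hc, hp⟩⟩⟩,
        hpa, hpb, hpc, hD⟩
    apply hg' _ hx
    rw [Fo9_apply, ← la, ← lb, ← lc, ← lp]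
    exact Fo9_af a b c p l

end Pool.Agent.PNY
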