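import Pool.Agent.PNY.RegDefs
import Pool.Agent.PEN.Defs

/-! R5: contact pairs are edges of the regular triangulation with heights `Im`. -/

set_option autoImplicit false

namespace Pool.Agent.PNY

open UpperHalfPlane Pool.Agent.PEN

noncomputable section

/-- the height of a point of the paraboloid region: `Im` of the point with Klein coordinates `q` -/
def gh (q : ℝ × ℝ) : ℝ := Real.sqrt (q.2 - q.1 ^ 2)

lemma gh_kl (z : ℍ) : gh (kl z) = z.im := by
  unfold gh kl
  simp only
  rw [show z.re ^ 2 + z.im ^ 2 - z.re ^ 2 = z.im ^ 2 by ring]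
  exact Real.sqrt_sq z.im_pos.le

lemma kl_inj39 {z w : ℍ} (h : kl z = kl w) : z = w := by
  have h1 : z.re = w.re := congrArg Prod.fst h
  have h2 : z.im = w.im := by rw [← gh_kl z, ← gh_kl w, h]
  exact UpperHalfPlane.ext_re_im h1 h2

/-- the Lorentz product in Klein coordinates -/
lemma lorentz39 (a p : ℍ) : 2 * a.im * p.im * Real.cosh (dist a p) =
    (kl a).2 + (kl p).2 - 2 * (kl a).1 * (kl p).1 := by
  rw [UpperHalfPlane.cosh_dist, Complex.dist_eq, ← Complex.normSq_eq_norm_sq, Complex.normSq_apply]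
  have h1 := a.im_pos
  have h2 := p.im_pos
  simp only [Complex.sub_re, Complex.sub_im, UpperHalfPlane.coe_re, UpperHalfPlane.coe_im, kl]
  field_simp
  ring

/-- the support function of the contact pair `a b` -/
def sup39 (c : ℝ) (a b : ℍ) : ℝ × ℝ × ℝ :=
  (1 + c)⁻¹ • ((2 * a.im)⁻¹ • ((kl a).2, -2 * (kl a).1, (1 : ℝ)) +
    (2 * b.im)⁻¹ • ((kl b).2, -2 * (kl b).1, (1 : ℝ)))

lemma af_sup39 {c : ℝ} (a b p : ℍ) :
    af (sup39 c a b) (kl p) = (1 + c)⁻¹ * (p.im * (Real.cosh (dist a p) + Real.cosh (dist b p))) := by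
  have h1 := a.im_pos
  have h2 := b.im_pos
  have e1 := lorentz39 a p
  have e2 := lorentz39 b p
  unfold sup39
  rw [af_smul, af_add, af_smul, af_smul]
  have f1 : af ((kl a).2, -2 * (kl a).1, (1 : ℝ)) (kl p) = 2 * a.im * p.im * Real.cosh (dist a p) := by
    rw [e1]; unfold af; simp only; ring
  have f2 : af ((kl b).2, -2 * (kl b).1, (1 : ℝ)) (kl p) = 2 * b.im * p.im * Real.cosh (dist b p) := by
    rw [e2]; unfold af; simp only; ring
  rw [f1, f2]
  field_simp

/-- **R5**: if all distances are at least `d` then pairs at distance `d` are edges -/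
theorem contact_Ed {d : ℝ} (hd : 0 < d) (Q : Finset ℍ)
    (hQ : ∀ x ∈ Q, ∀ y ∈ Q, x ≠ y → d ≤ dist x y) {a b : ℍ} (ha : a ∈ Q) (hb : b ∈ Q)
    (hab : dist a b = d) : Ed (Q.image kl) gh (kl a) (kl b) := by
  have hc : 1 < Real.cosh d := Real.one_lt_cosh.2 hd.ne'
  have hne : a ≠ b := by rintro rfl; rw [dist_self] at hab; linarith
  have hinv : (1 + Real.cosh d)⁻¹ * (1 + Real.cosh d) = 1 := inv_mul_cancel₀ (by linarith)
  refine ⟨Finset.mem_image_of_mem _ ha, Finset.mem_image_of_mem _ hb, fun h => hne (kl_inj39 h),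
    sup39 (Real.cosh d) a b, ?_, ?_, ?_⟩
  · rw [af_sup39, gh_kl, dist_self, dist_comm b a, hab, Real.cosh_zero]
    linear_combination a.im * hinv
  · rw [af_sup39, gh_kl, dist_self, hab, Real.cosh_zero]
    linear_combination b.im * hinv
  · intro q hq hqa hqb
    obtain ⟨p, hp, rfl⟩ := Finset.mem_image.1 hq
    have hpa : a ≠ p := fun h => hqa (by rw [h])
    have hpb : b ≠ p := fun h => hqb (by rw [h])
    have h1 : Real.cosh d ≤ Real.cosh (dist a p) := by
      rw [Real.cosh_le_cosh, abs_of_pos hd, abs_of_nonneg dist_nonneg]; exact hQ a ha p hp hpa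
    have h2 : Real.cosh d ≤ Real.cosh (dist b p) := by
      rw [Real.cosh_le_cosh, abs_of_pos hd, abs_of_nonneg dist_nonneg]; exact hQ b hb p hp hpb
    rw [af_sup39, gh_kl]
    have hi : 0 < (1 + Real.cosh d)⁻¹ := inv_pos.2 (by linarith)
    have hp0 := p.im_pos
    have h3 : p.im * (1 + Real.cosh d) < p.im * (Real.cosh (dist a p) + Real.cosh (dist b p)) :=
      mul_lt_mul_of_pos_left (by linarith) hp0
    have h4 := mul_lt_mul_of_pos_left h3 hi
    calc p.im = (1 + Real.cosh d)⁻¹ * (p.im * (1 + Real.cosh d)) := by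
          linear_combination -p.im * hinv
      _ < _ := h4

end

end Pool.Agent.PNY
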