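import Pool.Agent.PNY.Germ51
import Pool.Agent.PNY.Gen9
import Pool.Agent.PNY.R5h39
import Pool.Agent.PEN.Defs2

/-!
MP_45fc25_co, cell A, output: a triangulation of the Klein points which contains all contact
pairs, in the form `PTri` / `PTri0` of `PEN/Defs2`.
-/

set_option autoImplicit false

namespace Pool.Agent.PNY

open Finset Classical Pool.Agent.PEN UpperHalfPlane

theorem D_eq_ori (a b c : ℝ × ℝ) : D a b c = ori a b c := rfl

variable {P : Finset (ℝ × ℝ)} {g : ℝ × ℝ → ℝ} {a b c v : ℝ × ℝ}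

/-- two edges from `v` are not on the same ray -/
theorem Ed.ray (h1 : Ed P g v a) (h2 : Ed P g v b) : a ∉ openSegment ℝ v b := by
  rintro ⟨s, t, hs, ht, hst, he⟩
  obtain ⟨hv, ha, hva, l, l1, l2, l3⟩ := h1
  obtain ⟨-, hb, hvb, l', l1', l2', l3'⟩ := h2
  have e1 : s * v.1 + t * b.1 = a.1 := by
    have := congrArg Prod.fst he; simpa using this
  have e2 : s * v.2 + t * b.2 = a.2 := by
    have := congrArg Prod.snd he; simpa using this
  have hs' : s = 1 - t := by linarith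
  have hab : a ≠ b := by
    rintro rfl
    apply hva
    have q1 : s * (v.1 - a.1) = 0 := by rw [hs'] at e1 ⊢; linarith
    have q2 : s * (v.2 - a.2) = 0 := by rw [hs'] at e2 ⊢; linarith
    have q3 := (mul_eq_zero.1 q1).resolve_left hs.ne'
    have q4 := (mul_eq_zero.1 q2).resolve_left hs.ne'
    exact Prod.ext (by linarith) (by linarith)
  have s1 := l3 b hb hvb.symm (Ne.symm hab)
  have s2 := l3' a ha hva.symm hab
  have e3 : af (l' - l) a = t * af (l' - l) b := by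
    have e4 : af (l' - l) v = 0 := by rw [af_sub, l1, l1']; ring
    unfold af at e4 ⊢
    rw [← e1, ← e2, hs']
    linear_combination (1 - t) * e4
  rw [af_sub, af_sub, l2, l2'] at e3
  have e5 : t * (g b - af l b) < 0 := mul_neg_of_pos_of_neg ht (by linarith)
  linarith

/-- no edge from `v` enters the open angle of a triangle at `v` -/
theorem Tr.angle (h : Tr P g v a b) (h' : Ed P g v c) : ¬ (0 < D v a c ∧ 0 < D v c b) := by
  rintro ⟨h1, h2⟩
  obtain ⟨hv, ha, hb, hD, l, l1, l2, l3, l4⟩ := h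
  obtain ⟨-, hc, hvc, l', l1', l2', l3'⟩ := h'
  have hac : a ≠ c := by rintro rfl; rw [D_self'] at h1; exact lt_irrefl _ h1
  have hbc : b ≠ c := by rintro rfl; rw [D_self'] at h2; exact lt_irrefl _ h2
  have hva : a ≠ v := (ne_of_D3 hD).symm
  have hvb : b ≠ v := ne_of_D1 hD
  have i1 := l3' a ha hva hac
  have i2 := l3' b hb hvb hbc
  have i3 := l4 c hc hvc.symm (Ne.symm hac) (Ne.symm hbc)
  have e := bary51 (l' - l) v a b c
  rw [af_sub, af_sub, af_sub, af_sub, l1, l2, l3, l1', l2'] at e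
  have j1 : 0 < (af l' a - g a) * D v c b := mul_pos (by linarith) h2
  have j2 : 0 < (af l' b - g b) * D v a c := mul_pos (by linarith) h1
  have j3 : (g c - af l c) * D v a b < 0 := mul_neg_of_neg_of_pos (by linarith) hD
  linarith

theorem hull_of_bd (hv : v ∈ P) (h : Bd P v) : Hull P v := by
  obtain ⟨u, hu, hu'⟩ := h
  refine ⟨hv, (-u.2 * v.1 + u.1 * v.2, u.2, -u.1), ?_, ?_, fun p hp => ?_⟩
  · by_contra hcon
    push Not at hcon
    obtain ⟨q1, q2⟩ := hcon
    simp only at q1 q2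
    exact hu (Prod.ext (by simpa using (neg_eq_zero.1 q2)) q1)
  · unfold af; simp only; ring
  · have := hu' p hp
    unfold cr at this
    unfold af; simp only
    linarith

theorem card_darts51 (hG : Gen P g) (hn : 2 ≤ P.card) :
    ((P ×ˢ P).filter (fun x => Ed P g x.1 x.2 ∧ Lft P x.1 x.2)).card
      + 3 * (P.filter (Bd P)).card + 6 ≤ 6 * P.card := by
  have h1 : ((P ×ˢ P).filter (fun x => Ed P g x.1 x.2 ∧ Lft P x.1 x.2)) ⊆
      (trs P g).image (fun x => (x.1, x.2.1)) := by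
    intro x hx
    obtain ⟨-, hx2, hx3⟩ := mem_filter.1 hx
    obtain ⟨c, hc⟩ := left_exists hG hx2 hx3
    exact mem_image.2 ⟨(x.1, x.2, c), mem_trs.2 hc, rfl⟩
  have h2 : P.filter (Bd P) ⊆ P.filter (Hull P) := by
    intro v hv
    obtain ⟨hv1, hv2⟩ := mem_filter.1 hv
    exact mem_filter.2 ⟨hv1, hull_of_bd hv1 hv2⟩
  have h3 := card_le_card h1
  have h4 := card_le_card h2
  have h5 : ((trs P g).image (fun x => (x.1, x.2.1))).card ≤ (trs P g).card := card_image_le
  have h6 := card_trs P g hn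
  omega

theorem PTri_of_gen (hG : Gen P g) : PTri P (Ed P g) (Tr P g) where
  mem _ _ h := h.1
  ne _ _ h := h.2.2.1
  symm _ _ h := h.symm
  ray _ _ _ h1 h2 := h1.ray h2
  tr _ _ _ h := ⟨h.ed, h.2.2.2.1⟩
  rot _ _ _ h := h.rot
  uniq _ _ _ _ h h' := left_unique h h'
  ex _ _ h hl := left_exists hG h hl
  card hn := card_darts51 hG hn

theorem PTri0_of_gen (hG : Gen P g) : PTri0 P (Ed P g) (Tr P g) where
  mem _ _ h := h.1
  ne _ _ h := h.2.2.1
  symm _ _ h := h.symm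
  ray _ _ _ h1 h2 := h1.ray h2
  tr _ _ _ h := ⟨h.ed, h.2.2.2.1⟩
  rot _ _ _ h := h.rot
  uniq _ _ _ _ h h' := left_unique h h'
  ex _ _ h hl := left_exists hG h hl
  angle _ _ _ _ h h' := h.angle h'

/-- **cell A**: a triangulation which contains all contact pairs -/
theorem exists_PTri {d : ℝ} (hd : 0 < d) {P : Finset ℍ} (hP : Sep d P) :
    ∃ T Tr, PTri (P.image kl) T Tr ∧
      ∀ x ∈ P, ∀ y ∈ P, dist x y = d → T (kl x) (kl y) := by
  obtain ⟨g', h1, h2⟩ := gen_exists (P.image kl) gh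
    (fun p q => ∃ x ∈ P, ∃ y ∈ P, dist x y = d ∧ p = kl x ∧ q = kl y) (by
      rintro a b ⟨x, hx, y, hy, hxy, rfl, rfl⟩
      exact contact_Ed hd P hP hx hy hxy)
  exact ⟨_, _, PTri_of_gen h2, fun x hx y hy hxy => h1 _ _ ⟨x, hx, y, hy, hxy, rfl, rfl⟩⟩

theorem exists_PTri0 {d : ℝ} (hd : 0 < d) {P : Finset ℍ} (hP : Sep d P) :
    ∃ T Tr, PTri0 (P.image kl) T Tr ∧
      ∀ x ∈ P, ∀ y ∈ P, dist x y = d → T (kl x) (kl y) := by
  obtain ⟨g', h1, h2⟩ := gen_exists (P.image kl) gh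
    (fun p q => ∃ x ∈ P, ∃ y ∈ P, dist x y = d ∧ p = kl x ∧ q = kl y) (by
      rintro a b ⟨x, hx, y, hy, hxy, rfl, rfl⟩
      exact contact_Ed hd P hP hx hy hxy)
  exact ⟨_, _, PTri0_of_gen h2, fun x hx y hy hxy => h1 _ _ ⟨x, hx, y, hy, hxy, rfl, rfl⟩⟩

end Pool.Agent.PNY
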