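import Pool.Agent.PNY.Reg51

/-!
MP_45fc25_co, cell A, rows R3 and R4: the number of triangles of a regular triangulation.
In the order given by a linear functional which is injective on the points, each triangle has a
middle vertex, and lies below or above it; each vertex is middle at most once on each side, a
point on the boundary of the hull on at most one side, the first and the last point never.
-/

namespace Pool.Agent.PNY

open Finset

/-- the linear functional `x + m y` -/
def xi (m : ℝ) (p : ℝ × ℝ) : ℝ := p.1 + m * p.2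

theorem germ_id (m : ℝ) (l : ℝ × ℝ × ℝ) (v a b : ℝ × ℝ) :
    (xi m b - xi m v) * af l a + (xi m v - xi m a) * af l b =
      ((xi m v - xi m a) + (xi m b - xi m v)) * af l v + D v a b * (l.2.1 * m - l.2.2) := by
  unfold xi af D; ring

variable {P : Finset (ℝ × ℝ)} {g : ℝ × ℝ → ℝ} {a b v a' b' : ℝ × ℝ}

/-- one inequality between the slopes of two support functions -/
theorem slope51 (m e : ℝ) (h : Tr P g v a b) (ha : 0 < e * (xi m v - xi m a))
    (hb : 0 < e * (xi m b - xi m v)) {l l' : ℝ × ℝ × ℝ} (l1 : af l v = g v) (l2 : af l a = g a)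
    (l3 : af l b = g b) (l1' : af l' v = g v) (hge : ∀ p ∈ P, g p ≤ af l' p) :
    e * (l.2.1 * m - l.2.2) ≤ e * (l'.2.1 * m - l'.2.2) ∧
      (g a < af l' a ∨ g b < af l' b → e * (l.2.1 * m - l.2.2) < e * (l'.2.1 * m - l'.2.2)) := by
  obtain ⟨-, haP, hbP, hD, -⟩ := h
  have e1 := germ_id m l v a b
  have e2 := germ_id m l' v a b
  rw [l1, l2, l3] at e1
  rw [l1'] at e2
  have i1 := hge a haP
  have i2 := hge b hbP
  have key : D v a b * (e * (l'.2.1 * m - l'.2.2) - e * (l.2.1 * m - l.2.2)) =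
      e * (xi m b - xi m v) * (af l' a - g a) + e * (xi m v - xi m a) * (af l' b - g b) := by
    linear_combination e * e1 - e * e2
  constructor
  · by_contra hcon
    push Not at hcon
    have j1 : D v a b * (e * (l'.2.1 * m - l'.2.2) - e * (l.2.1 * m - l.2.2)) < 0 :=
      mul_neg_of_pos_of_neg hD (by linarith)
    have j2 : 0 ≤ e * (xi m b - xi m v) * (af l' a - g a) :=
      mul_nonneg hb.le (by linarith)
    have j3 : 0 ≤ e * (xi m v - xi m a) * (af l' b - g b) :=
      mul_nonneg ha.le (by linarith)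
    linarith
  · intro hs
    by_contra hcon
    push Not at hcon
    have j1 : D v a b * (e * (l'.2.1 * m - l'.2.2) - e * (l.2.1 * m - l.2.2)) ≤ 0 :=
      mul_nonpos_of_nonneg_of_nonpos hD.le (by linarith)
    have j2 : 0 ≤ e * (xi m b - xi m v) * (af l' a - g a) :=
      mul_nonneg hb.le (by linarith)
    have j3 : 0 ≤ e * (xi m v - xi m a) * (af l' b - g b) :=
      mul_nonneg ha.le (by linarith)
    rcases hs with hs | hs
    · have j4 : 0 < e * (xi m b - xi m v) * (af l' a - g a) :=
        mul_pos hb (by linarith)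
      linarith
    · have j4 : 0 < e * (xi m v - xi m a) * (af l' b - g b) :=
        mul_pos ha (by linarith)
      linarith

/-- two triangles with the same middle vertex and on the same side are equal -/
theorem germ51 (m e : ℝ) (h : Tr P g v a b) (h' : Tr P g v a' b')
    (ha : 0 < e * (xi m v - xi m a)) (hb : 0 < e * (xi m b - xi m v))
    (ha' : 0 < e * (xi m v - xi m a')) (hb' : 0 < e * (xi m b' - xi m v)) :
    a = a' ∧ b = b' := by
  classical
  obtain ⟨l, l1, l2, l3, l4⟩ := h.2.2.2.2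
  obtain ⟨l', l1', l2', l3', l4'⟩ := h'.2.2.2.2
  have ge : ∀ p ∈ P, g p ≤ af l p := by
    intro p hp
    by_cases q1 : p = v
    · rw [q1, l1]
    by_cases q2 : p = a
    · rw [q2, l2]
    by_cases q3 : p = b
    · rw [q3, l3]
    exact (l4 p hp q1 q2 q3).le
  have ge' : ∀ p ∈ P, g p ≤ af l' p := by
    intro p hp
    by_cases q1 : p = v
    · rw [q1, l1']
    by_cases q2 : p = a'
    · rw [q2, l2']
    by_cases q3 : p = b'
    · rw [q3, l3']
    exact (l4' p hp q1 q2 q3).le
  have s1 := slope51 m e h ha hb l1 l2 l3 l1' ge'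
  have s2 := (slope51 m e h' ha' hb' l1' l2' l3' l1 ge).1
  have hno : ¬ (g a < af l' a ∨ g b < af l' b) := fun hc => by
    have := s1.2 hc
    linarith
  push Not at hno
  constructor
  · by_contra hne
    have q1 : a ≠ v := by rintro rfl; simp at ha
    have q2 : a ≠ b' := by
      rintro rfl
      have : e * (xi m v - xi m a) + e * (xi m a - xi m v) = 0 := by ring
      linarith
    exact absurd hno.1 (not_le.2 (l4' a h.2.1 q1 hne q2))
  · by_contra hne
    have q1 : b ≠ v := by rintro rfl; simp at hb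
    have q2 : b ≠ a' := by
      rintro rfl
      have : e * (xi m v - xi m b) + e * (xi m b - xi m v) = 0 := by ring
      linarith
    exact absurd hno.2 (not_le.2 (l4' b h.2.2.1 q1 q2 hne))

/-- a point on the boundary of the hull is not the middle vertex on both sides -/
theorem hull_one_side (m : ℝ) (hv : Hull P v) (h : Tr P g v a b) (h' : Tr P g v a' b')
    (ha : xi m a < xi m v) (hb : xi m v < xi m b)
    (ha' : xi m v < xi m a') (hb' : xi m b' < xi m v) : False := by
  obtain ⟨-, l, hl, l0, lP⟩ := hv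
  have e1 := germ_id m l v a b
  have e2 := germ_id m l v a' b'
  rw [l0] at e1 e2
  have i1 := lP a h.2.1
  have i2 := lP b h.2.2.1
  have i3 := lP a' h'.2.1
  have i4 := lP b' h'.2.2.1
  have hD := h.2.2.2.1
  have hD' := h'.2.2.2.1
  have k1 : 0 ≤ D v a b * (l.2.1 * m - l.2.2) := by
    have j1 : 0 ≤ (xi m b - xi m v) * af l a := mul_nonneg (by linarith) i1
    have j2 : 0 ≤ (xi m v - xi m a) * af l b := mul_nonneg (by linarith) i2
    linarith
  have k2 : D v a' b' * (l.2.1 * m - l.2.2) ≤ 0 := by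
    have j1 : 0 ≤ (xi m v - xi m b') * af l a' := mul_nonneg (by linarith) i3
    have j2 : 0 ≤ (xi m a' - xi m v) * af l b' := mul_nonneg (by linarith) i4
    linarith
  have k3 : l.2.1 * m - l.2.2 = 0 := by
    apply le_antisymm
    · by_contra hc
      push Not at hc
      exact absurd k2 (not_le.2 (mul_pos hD' hc))
    · by_contra hc
      push Not at hc
      exact absurd k1 (not_le.2 (mul_neg_of_pos_of_neg hD hc))
  have k4 : (xi m b - xi m v) * af l a = 0 := by
    rw [k3] at e1
    have j1 : 0 ≤ (xi m b - xi m v) * af l a := mul_nonneg (by linarith) i1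
    have j2 : 0 ≤ (xi m v - xi m a) * af l b := mul_nonneg (by linarith) i2
    linarith
  have k5 : af l a = 0 := by
    rcases mul_eq_zero.1 k4 with q | q
    · linarith
    · exact q
  have k6 : l.2.1 * (xi m a - xi m v) = 0 := by
    have : l.2.1 * (xi m a - xi m v) = af l a - af l v + (a.2 - v.2) * (l.2.1 * m - l.2.2) := by
      unfold xi af; ring
    rw [this, k5, l0, k3]; ring
  have k7 : l.2.1 = 0 := by
    rcases mul_eq_zero.1 k6 with q | q
    · exact q
    · linarith
  rcases hl with hl | hl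
  · exact hl k7
  · apply hl
    rw [k7] at k3
    linarith

/-- a linear functional which is injective on the points -/
theorem exists_xi (P : Finset (ℝ × ℝ)) :
    ∃ m : ℝ, ∀ p ∈ P, ∀ q ∈ P, xi m p = xi m q → p = q := by
  classical
  obtain ⟨m, hm⟩ := Set.Infinite.exists_notMem_finset (s := (Set.univ : Set ℝ)) Set.infinite_univ
    ((P ×ˢ P).image (fun x => (x.2.1 - x.1.1) / (x.1.2 - x.2.2)))
  refine ⟨m, fun p hp q hq h => ?_⟩
  by_contra hne
  apply hm.2
  unfold xi at h
  have h2 : p.2 - q.2 ≠ 0 := by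
    intro h2
    have h3 : p.2 = q.2 := by linarith
    rw [h3] at h
    exact hne (Prod.ext (by linarith) h3)
  refine mem_image.2 ⟨(p, q), mem_product.2 ⟨hp, hq⟩, ?_⟩
  rw [div_eq_iff h2]
  linarith

open Classical in
/-- all counterclockwise triangles, three ordered triples for each -/
noncomputable def trs (P : Finset (ℝ × ℝ)) (g : ℝ × ℝ → ℝ) :
    Finset ((ℝ × ℝ) × (ℝ × ℝ) × (ℝ × ℝ)) :=
  (P ×ˢ P ×ˢ P).filter (fun x => Tr P g x.1 x.2.1 x.2.2)

theorem mem_trs {P : Finset (ℝ × ℝ)} {g : ℝ × ℝ → ℝ} {x : (ℝ × ℝ) × (ℝ × ℝ) × (ℝ × ℝ)} :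
    x ∈ trs P g ↔ Tr P g x.1 x.2.1 x.2.2 := by
  classical
  unfold trs
  rw [mem_filter]
  exact ⟨fun h => h.2, fun h => ⟨mem_product.2 ⟨h.1, mem_product.2 ⟨h.2.1, h.2.2.1⟩⟩, h⟩⟩

open Classical in
/-- the number of triangles is at most `2 n - h - 2` -/
theorem card_trs (P : Finset (ℝ × ℝ)) (g : ℝ × ℝ → ℝ) (hn : 2 ≤ P.card) :
    (trs P g).card + 3 * (P.filter (Hull P)).card + 6 ≤ 6 * P.card := by
  obtain ⟨m, hm⟩ := exists_xi P
  set Md := (trs P g).filter (fun x => xi m x.2.1 < xi m x.1 ∧ xi m x.1 < xi m x.2.2) with hMd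
  set Mu := (trs P g).filter (fun x => xi m x.1 < xi m x.2.1 ∧ xi m x.2.2 < xi m x.1) with hMu
  -- rotations
  have hsub : trs P g ⊆ (Md ∪ Mu) ∪ (Md ∪ Mu).image (fun x => (x.2.2, x.1, x.2.1)) ∪
      (Md ∪ Mu).image (fun x => (x.2.1, x.2.2, x.1)) := by
    intro x hx
    have hT := mem_trs.1 hx
    obtain ⟨a, b, c⟩ := x
    simp only at hT
    have hab : xi m a ≠ xi m b := fun h => ne_of_D3 hT.2.2.2.1 (hm a hT.1 b hT.2.1 h)
    have hac : xi m c ≠ xi m a := fun h => ne_of_D1 hT.2.2.2.1 (hm c hT.2.2.1 a hT.1 h)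
    have hbc : xi m c ≠ xi m b := fun h => ne_of_D2 hT.2.2.2.1 (hm c hT.2.2.1 b hT.2.1 h)
    have hT1 : (b, c, a) ∈ trs P g := mem_trs.2 hT.rot
    have hT2 : (c, a, b) ∈ trs P g := mem_trs.2 hT.rot.rot
    rw [mem_union, mem_union]
    -- which one is the middle one
    rcases lt_or_gt_of_ne hab with h1 | h1 <;> rcases lt_or_gt_of_ne hac with h2 | h2 <;>
      rcases lt_or_gt_of_ne hbc with h3 | h3
    · -- a < b, c < a, c < b : a middle, up
      exact Or.inl (Or.inl (mem_union_right _ (mem_filter.2 ⟨hx, h1, h2⟩)))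
    · exact absurd (h1.trans (h3.trans h2)) (lt_irrefl _)
    · -- a < c < b : c middle ; (c, a, b)
      refine Or.inr (mem_image.2 ⟨(c, a, b), mem_union_left _ (mem_filter.2 ⟨hT2, h2, h3⟩), rfl⟩)
    · -- a < b < c : b middle ; (b, c, a)
      refine Or.inl (Or.inr (mem_image.2 ⟨(b, c, a),
        mem_union_right _ (mem_filter.2 ⟨hT1, h3, h1⟩), rfl⟩))
    · -- b < a, c < a, c < b : b middle ; (b, c, a) with c < b < a
      refine Or.inl (Or.inr (mem_image.2 ⟨(b, c, a),
        mem_union_left _ (mem_filter.2 ⟨hT1, h3, h1⟩), rfl⟩))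
    · -- b < c < a : c middle ; (c, a, b)
      refine Or.inr (mem_image.2 ⟨(c, a, b),
        mem_union_right _ (mem_filter.2 ⟨hT2, h2, h3⟩), rfl⟩)
    · exact absurd (h1.trans (h2.trans h3)) (lt_irrefl _)
    · -- b < a < c : a middle, down
      exact Or.inl (Or.inl (mem_union_left _ (mem_filter.2 ⟨hx, h1, h2⟩)))
  have hc1 : (trs P g).card ≤ 3 * (Md ∪ Mu).card := by
    refine (card_le_card hsub).trans ?_
    refine (card_union_le _ _).trans ?_
    have h1 := card_union_le (Md ∪ Mu) ((Md ∪ Mu).image (fun x => (x.2.2, x.1, x.2.1)))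
    have h2 : ((Md ∪ Mu).image (fun x => (x.2.2, x.1, x.2.1))).card ≤ (Md ∪ Mu).card :=
      card_image_le
    have h3 : ((Md ∪ Mu).image (fun x => (x.2.1, x.2.2, x.1))).card ≤ (Md ∪ Mu).card :=
      card_image_le
    omega
  -- injectivity
  have hd : Md.card ≤ (Md.image (fun x => x.1)).card := by
    rw [card_image_of_injOn]
    intro x hx y hy hxy
    obtain ⟨hx1, hx2, hx3⟩ := mem_filter.1 (mem_coe.1 hx)
    obtain ⟨hy1, hy2, hy3⟩ := mem_filter.1 (mem_coe.1 hy)
    obtain ⟨x1, x2, x3⟩ := x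
    obtain ⟨y1, y2, y3⟩ := y
    simp only at hx2 hx3 hy2 hy3 hxy
    subst hxy
    have t1 : Tr P g x1 x2 x3 := mem_trs.1 hx1
    have t2 : Tr P g x1 y2 y3 := mem_trs.1 hy1
    have := germ51 m 1 t1 t2 (by linarith) (by linarith) (by linarith) (by linarith)
    rw [this.1, this.2]
  have hu : Mu.card ≤ (Mu.image (fun x => x.1)).card := by
    rw [card_image_of_injOn]
    intro x hx y hy hxy
    obtain ⟨hx1, hx2, hx3⟩ := mem_filter.1 (mem_coe.1 hx)
    obtain ⟨hy1, hy2, hy3⟩ := mem_filter.1 (mem_coe.1 hy)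
    obtain ⟨x1, x2, x3⟩ := x
    obtain ⟨y1, y2, y3⟩ := y
    simp only at hx2 hx3 hy2 hy3 hxy
    subst hxy
    have t1 : Tr P g x1 x2 x3 := mem_trs.1 hx1
    have t2 : Tr P g x1 y2 y3 := mem_trs.1 hy1
    have := germ51 m (-1) t1 t2 (by linarith) (by linarith) (by linarith) (by linarith)
    rw [this.1, this.2]
  -- first and last point
  have hne : P.Nonempty := card_pos.1 (by omega)
  obtain ⟨p0, hp0, hmin⟩ := exists_min_image P (xi m) hne
  obtain ⟨p1, hp1, hmax⟩ := exists_max_image P (xi m) hne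
  have hp01 : p0 ≠ p1 := by
    rintro rfl
    obtain ⟨q, hq, hq'⟩ := exists_mem_ne (by omega : 1 < P.card) p0
    exact hq' (hm q hq p0 hp0 (le_antisymm (hmax q hq) (hmin q hq)))
  have hU : Md.image (fun x => x.1) ∪ Mu.image (fun x => x.1) ⊆ (P.erase p0).erase p1 := by
    intro v hv
    rcases mem_union.1 hv with h | h
    · obtain ⟨x, hx, rfl⟩ := mem_image.1 h
      obtain ⟨hx1, hx2, hx3⟩ := mem_filter.1 hx
      have hT := mem_trs.1 hx1
      refine mem_erase.2 ⟨?_, mem_erase.2 ⟨?_, hT.1⟩⟩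
      · intro he
        have := hmax _ hT.2.2.1
        rw [← he] at this
        linarith
      · intro he
        have := hmin _ hT.2.1
        rw [← he] at this
        linarith
    · obtain ⟨x, hx, rfl⟩ := mem_image.1 h
      obtain ⟨hx1, hx2, hx3⟩ := mem_filter.1 hx
      have hT := mem_trs.1 hx1
      refine mem_erase.2 ⟨?_, mem_erase.2 ⟨?_, hT.1⟩⟩
      · intro he
        have := hmax _ hT.2.1
        rw [← he] at this
        linarith
      · intro he
        have := hmin _ hT.2.2.1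
        rw [← he] at this
        linarith
  have hI : Md.image (fun x => x.1) ∩ Mu.image (fun x => x.1) ⊆ P.filter (fun v => ¬ Hull P v) := by
    intro v hv
    obtain ⟨h1, h2⟩ := mem_inter.1 hv
    obtain ⟨x, hx, hxv⟩ := mem_image.1 h1
    obtain ⟨y, hy, hyv⟩ := mem_image.1 h2
    obtain ⟨hx1, hx2, hx3⟩ := mem_filter.1 hx
    obtain ⟨hy1, hy2, hy3⟩ := mem_filter.1 hy
    have hT := mem_trs.1 hx1
    have hT' := mem_trs.1 hy1
    rw [hxv] at hT hx2 hx3
    rw [hyv] at hT' hy2 hy3
    exact mem_filter.2 ⟨hT.1, fun hH => hull_one_side m hH hT hT' hx2 hx3 hy2 hy3⟩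
  have c1 := card_le_card hU
  have c2 := card_le_card hI
  have c3 := card_union_add_card_inter (Md.image (fun x => x.1)) (Mu.image (fun x => x.1))
  have c4 : ((P.erase p0).erase p1).card = P.card - 2 := by
    rw [card_erase_of_mem (mem_erase.2 ⟨hp01.symm, hp1⟩), card_erase_of_mem hp0]
    omega
  have c5 : (P.filter (Hull P)).card + (P.filter (fun v => ¬ Hull P v)).card = P.card :=
    card_filter_add_card_filter_not _
  have c6 := card_union_le Md Mu
  omega

end Pool.Agent.PNY
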