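import Pool.Agent.PNY.Reg51
import Pool.Agent.PNY.Germ51
import Pool.Agent.PNY.Gen9
import Pool.Agent.PNY.R5h39
import Pool.Agent.PEN.Defs2

set_option autoImplicit false
set_option linter.all false

/-!
# The planar triangulation of a separated set of points of the hyperbolic plane
-/

namespace Pool.Agent.PEN

open Classical UpperHalfPlane

noncomputable section

theorem D_eq_ori9 (a b c : Pt) : PNY.D a b c = ori a b c := rfl

/-- two edges of a regular triangulation are not on the same ray -/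
theorem Ed_ray9 {P : Finset Pt} {g : Pt → ℝ} {v x y : Pt} (hx : PNY.Ed P g v x)
    (hy : PNY.Ed P g v y) : x ∉ openSegment ℝ v y := by
  rintro ⟨s, t, hs, ht, hst, e⟩
  obtain ⟨hv, hxP, hvx, l, h1, h2, h3⟩ := hx
  obtain ⟨-, hyP, hvy, l', h1', h2', h3'⟩ := hy
  have hxy : x ≠ y := by
    rintro rfl
    apply hvx
    have e1 : s • v = s • x := by
      have : s • v + t • x = s • x + t • x := by rw [e, ← add_smul, hst, one_smul]
      exact add_right_cancel this
    exact smul_right_injective _ hs.ne' e1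
  have k1 := h3 y hyP hvy.symm hxy.symm
  have k2 := h3' x hxP hvx.symm hxy
  have aff : ∀ m : ℝ × ℝ × ℝ, PNY.af m x = s * PNY.af m v + t * PNY.af m y := by
    intro m
    rw [← e]
    simp only [PNY.af, Prod.fst_add, Prod.snd_add, Prod.smul_fst, Prod.smul_snd, smul_eq_mul]
    linear_combination -m.1 * hst
  have a1 := aff l
  have a2 := aff l'
  rw [h1, h2] at a1
  rw [h1', h2'] at a2
  nlinarith [mul_lt_mul_of_pos_left k1 ht]

theorem Bd_hull9 {P : Finset Pt} {v : Pt} (hv : v ∈ P) (h : Bd P v) : PNY.Hull P v := by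
  obtain ⟨u, hu, h⟩ := h
  refine ⟨hv, (u.1 * v.2 - u.2 * v.1, u.2, -u.1), ?_, ?_, ?_⟩
  · by_contra hcon
    push Not at hcon
    obtain ⟨h1, h2⟩ := hcon
    simp only at h1 h2
    exact hu (Prod.ext (by simpa using h2) (by simpa using h1))
  · simp only [PNY.af]; ring
  · intro p hp
    have := h p hp
    simp only [cr] at this
    simp only [PNY.af]
    linarith

/-- a regular triangulation gives the interface -/
theorem pTri_of_gen9 {P : Finset Pt} {g : Pt → ℝ} (hG : PNY.Gen P g) :
    PTri P (PNY.Ed P g) (PNY.Tr P g) where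
  mem := fun a b h => h.1
  ne := fun a b h => h.2.2.1
  symm := fun a b h => h.symm
  ray := fun v x y h h' => Ed_ray9 h h'
  tr := fun a b c h => ⟨h.ed, h.2.2.2.1⟩
  rot := fun a b c h => h.rot
  uniq := fun a b c c' h h' => PNY.left_unique h h'
  ex := fun a b h h' => PNY.left_exists hG h h'
  card := by
    intro h2
    have h3 := PNY.card_trs P g h2
    have h4 : ((P ×ˢ P).filter (fun x => PNY.Ed P g x.1 x.2 ∧ Lft P x.1 x.2)).card ≤
        (PNY.trs P g).card := by
      have hsub : (P ×ˢ P).filter (fun x => PNY.Ed P g x.1 x.2 ∧ Lft P x.1 x.2) ⊆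
          (PNY.trs P g).image (fun x => (x.1, x.2.1)) := by
        rintro ⟨a, b⟩ hx
        obtain ⟨-, h5, h6⟩ := Finset.mem_filter.1 hx
        obtain ⟨c, hc⟩ := PNY.left_exists hG h5 h6
        exact Finset.mem_image.2 ⟨(a, b, c), PNY.mem_trs.2 hc, rfl⟩
      exact (Finset.card_le_card hsub).trans Finset.card_image_le
    have h5 : (P.filter (Bd P)).card ≤ (P.filter (PNY.Hull P)).card := by
      refine Finset.card_le_card ?_
      intro v hv
      obtain ⟨h6, h7⟩ := Finset.mem_filter.1 hv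
      exact Finset.mem_filter.2 ⟨h6, Bd_hull9 h6 h7⟩
    have e : (P.filter (PNY.Hull P)).card = (Finset.filter (PNY.Hull P) P).card := rfl
    omega

/-- **the triangulation of a separated set**: all contact pairs are edges -/
theorem exists_PTri {d : ℝ} (hd : 0 < d) {P : Finset ℍ} (hP : Sep d P) :
    ∃ T Tr, PTri (P.image kl) T Tr ∧ ∀ x ∈ P, ∀ y ∈ P, dist x y = d → T (kl x) (kl y) := by
  obtain ⟨g', h1, h2⟩ := PNY.gen_exists (P.image kl) PNY.gh
    (fun a b => ∃ x ∈ P, ∃ y ∈ P, dist x y = d ∧ a = kl x ∧ b = kl y) (by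
      rintro a b ⟨x, hx, y, hy, hxy, rfl, rfl⟩
      exact PNY.contact_Ed hd P hP hx hy hxy)
  exact ⟨_, _, pTri_of_gen9 h2, fun x hx y hy hxy => h1 _ _ ⟨x, hx, y, hy, hxy, rfl, rfl⟩⟩

end

end Pool.Agent.PEN
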