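import Pool.Agent.PNY.RegDefs

/-!
MP_45fc25_co, cell A, row R1: every edge with a point strictly on its left has exactly one
triangle on its left; the sides of a triangle are edges; at a point which is not on the
boundary of the convex hull the left apex is a permutation of the neighbours.
-/

namespace Pool.Agent.PNY

open Finset

/-- a small multiple of any function does not destroy finitely many strict inequalities -/
theorem small51 {α : Type*} (S : Finset α) (h k : α → ℝ) (hh : ∀ p ∈ S, 0 < h p) :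
    ∃ δ₀ : ℝ, 0 < δ₀ ∧ ∀ δ, 0 < δ → δ ≤ δ₀ → ∀ p ∈ S, 0 < h p + δ * k p := by
  classical
  induction S using Finset.induction_on with
  | empty => exact ⟨1, one_pos, fun δ _ _ p hp => by simp at hp⟩
  | insert a S ha ih =>
    obtain ⟨δ₁, h1, h2⟩ := ih (fun p hp => hh p (mem_insert_of_mem hp))
    have h3 : 0 < h a := hh a (mem_insert_self a S)
    have h4 : 0 < |k a| + 1 := by positivity
    refine ⟨min δ₁ (h a / (|k a| + 1)), lt_min h1 (div_pos h3 h4), fun δ hδ hδ' p hp => ?_⟩
    rcases mem_insert.1 hp with rfl | hp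
    · have h5 : δ ≤ h p / (|k p| + 1) := hδ'.trans (min_le_right _ _)
      have h6 : δ * (|k p| + 1) ≤ h p := (le_div_iff₀ h4).1 h5
      have h7 : -|k p| ≤ k p := neg_abs_le _
      nlinarith
    · exact h2 δ hδ (hδ'.trans (min_le_left _ _)) p hp

theorem bary51 (m : ℝ × ℝ × ℝ) (a b c p : ℝ × ℝ) :
    af m p * D a b c = af m a * D p b c + af m b * D a p c + af m c * D a b p := by
  unfold af D; ring

theorem ne_of_D1 {a b c : ℝ × ℝ} (h : 0 < D a b c) : c ≠ a := by
  rintro rfl; rw [D_self] at h; exact lt_irrefl _ h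

theorem ne_of_D2 {a b c : ℝ × ℝ} (h : 0 < D a b c) : c ≠ b := by
  rintro rfl; rw [D_self'] at h; exact lt_irrefl _ h

theorem ne_of_D3 {a b c : ℝ × ℝ} (h : 0 < D a b c) : a ≠ b := by
  rintro rfl; rw [D_self''] at h; exact lt_irrefl _ h

variable {P : Finset (ℝ × ℝ)} {g : ℝ × ℝ → ℝ} {a b c v : ℝ × ℝ}

/-- the first side of a triangle is an edge -/
theorem Tr.ed (h : Tr P g a b c) : Ed P g a b := by
  classical
  obtain ⟨ha, hb, hc, hD, l, h1, h2, h3, h4⟩ := h
  obtain ⟨δ, hδ, hδ'⟩ := small51 ((P.erase a).erase b) (fun p => if p = c then 1 else af l p - g p)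
    (fun p => if p = c then 0 else D a b p) (by
      intro p hp
      simp only [mem_erase] at hp
      by_cases hpc : p = c
      · simp [hpc]
      · simp only [hpc, if_false]
        linarith [h4 p hp.2.2 hp.2.1 hp.1 hpc])
  refine ⟨ha, hb, ne_of_D3 hD, l + afD δ a b, ?_, ?_, fun p hp hpa hpb => ?_⟩
  · rw [af_add, af_afD, D_self, h1]; ring
  · rw [af_add, af_afD, D_self', h2]; ring
  · rw [af_add, af_afD]
    by_cases hpc : p = c
    · rw [hpc, h3]
      have := mul_pos hδ hD
      linarith
    · have := hδ' δ hδ le_rfl p (by simp [hpa, hpb, hp])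
      simp only [hpc, if_false] at this
      linarith

theorem Tr.ed_bc (h : Tr P g a b c) : Ed P g b c := h.rot.ed

theorem Tr.ed_ca (h : Tr P g a b c) : Ed P g c a := h.rot.rot.ed

theorem Tr.ed_ac (h : Tr P g a b c) : Ed P g a c := h.ed_ca.symm

/-- the left triangle of an edge -/
theorem left_exists (hG : Gen P g) (h : Ed P g a b) (hl : ∃ p ∈ P, 0 < D a b p) :
    ∃ c, Tr P g a b c := by
  classical
  obtain ⟨ha, hb, hab, l, h1, h2, h3⟩ := h
  obtain ⟨p₀, hp₀, hp₀'⟩ := hl
  obtain ⟨c, hc, hmin⟩ := exists_min_image (P.filter (fun p => 0 < D a b p))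
    (fun p => (af l p - g p) / D a b p) ⟨p₀, mem_filter.2 ⟨hp₀, hp₀'⟩⟩
  obtain ⟨hcP, hcD⟩ := mem_filter.1 hc
  have hfc : 0 < (af l c - g c) / D a b c :=
    div_pos (by linarith [h3 c hcP (ne_of_D1 hcD) (ne_of_D2 hcD)]) hcD
  set s : ℝ := (af l c - g c) / D a b c with hs
  have e1 : af (l - afD s a b) a = g a := by rw [af_sub, af_afD, D_self, h1]; ring
  have e2 : af (l - afD s a b) b = g b := by rw [af_sub, af_afD, D_self', h2]; ring
  have e3 : af (l - afD s a b) c = g c := by
    rw [af_sub, af_afD, hs, div_mul_cancel₀ _ hcD.ne']; ring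
  refine ⟨c, ha, hb, hcP, hcD, l - afD s a b, e1, e2, e3, fun p hp hpa hpb hpc => ?_⟩
  rcases le_or_gt (D a b p) 0 with hle | hgt
  · rw [af_sub, af_afD]
    have h4 := h3 p hp hpa hpb
    have h5 : s * D a b p ≤ 0 := mul_nonpos_of_nonneg_of_nonpos hfc.le hle
    linarith
  · have h4 : s ≤ (af l p - g p) / D a b p := hmin p (mem_filter.2 ⟨hp, hgt⟩)
    have h5 : s * D a b p ≤ af l p - g p := (le_div_iff₀ hgt).1 h4
    have h6 : g p ≤ af (l - afD s a b) p := by rw [af_sub, af_afD]; linarith
    exact lt_of_le_of_ne h6 (Ne.symm (hG a ha b hb c hcP p hp hpa hpb hpc hcD.ne' _ e1 e2 e3))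

/-- the left triangle of an edge is unique -/
theorem left_unique {c' : ℝ × ℝ} (h : Tr P g a b c) (h' : Tr P g a b c') : c = c' := by
  by_contra hne
  obtain ⟨ha, hb, hc, hD, l, h1, h2, h3, h4⟩ := h
  obtain ⟨-, -, hc', hD', l', h1', h2', h3', h4'⟩ := h'
  have e1 := h4' c hc (ne_of_D1 hD) (ne_of_D2 hD) hne
  have e2 := h4 c' hc' (ne_of_D1 hD') (ne_of_D2 hD') (Ne.symm hne)
  have e3 := bary51 (l' - l) a b c c'
  rw [af_sub, af_sub, af_sub, af_sub, h1, h1', h2, h2', h3, h3'] at e3
  simp only [sub_self, zero_mul, zero_add] at e3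
  have e4 : 0 < (af l' c - g c) * D a b c' := mul_pos (by linarith) hD'
  have e5 : (g c' - af l c') * D a b c < 0 := mul_neg_of_neg_of_pos (by linarith) hD
  linarith

/-- two different triangles share at most one edge: the apexes are on different sides -/
theorem Tr.not_both {c' : ℝ × ℝ} (h : Tr P g a b c) (h' : Tr P g b a c') : c ≠ c' := by
  rintro rfl
  have h1 := h.2.2.2.1
  have h2 := h'.2.2.2.1
  rw [D_swap] at h2
  linarith

/-- an inner point: every edge at it has a point strictly on its left -/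
theorem left_of_inner (hv : ¬ Hull P v) (h : Ed P g v a) : ∃ p ∈ P, 0 < D v a p := by
  by_contra hcon
  push Not at hcon
  apply hv
  refine ⟨h.1, afD (-1) v a, ?_, ?_, fun p hp => ?_⟩
  · have hne := h.2.2.1
    by_contra hc
    push Not at hc
    obtain ⟨h1, h2⟩ := hc
    simp only [afD] at h1 h2
    exact hne (Prod.ext (by linarith) (by linarith))
  · rw [af_afD, D_self]; ring
  · rw [af_afD]; linarith [hcon p hp]

/-- an inner point: every edge at it has a point strictly on its right -/
theorem right_of_inner (hv : ¬ Hull P v) (h : Ed P g v a) : ∃ p ∈ P, 0 < D a v p := by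
  by_contra hcon
  push Not at hcon
  apply hv
  refine ⟨h.1, afD 1 v a, ?_, ?_, fun p hp => ?_⟩
  · have hne := h.2.2.1
    by_contra hc
    push Not at hc
    obtain ⟨h1, h2⟩ := hc
    simp only [afD] at h1 h2
    exact hne (Prod.ext (by linarith) (by linarith))
  · rw [af_afD, D_self]; ring
  · rw [af_afD]
    have := hcon p hp
    rw [D_swap] at this
    linarith

theorem apex_left (hG : Gen P g) (hv : ¬ Hull P v) (h : Ed P g v a) : ∃ c, Tr P g v a c :=
  left_exists hG h (left_of_inner hv h)

theorem apex_right (hG : Gen P g) (hv : ¬ Hull P v) (h : Ed P g v a) : ∃ c, Tr P g v c a := by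
  obtain ⟨c, hc⟩ := left_exists hG h.symm (right_of_inner hv h)
  exact ⟨c, hc.rot⟩

/-- the right triangle is unique, too -/
theorem right_unique {c' : ℝ × ℝ} (h : Tr P g v c a) (h' : Tr P g v c' a) : c = c' :=
  left_unique h.rot.rot h'.rot.rot

/-- at an inner point the left apex is a permutation of the neighbours -/
noncomputable def sig (hG : Gen P g) (hv : ¬ Hull P v) : Equiv.Perm {a // Ed P g v a} where
  toFun a := ⟨(apex_left hG hv a.2).choose, (apex_left hG hv a.2).choose_spec.ed_ac⟩
  invFun a := ⟨(apex_right hG hv a.2).choose, (apex_right hG hv a.2).choose_spec.ed⟩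
  left_inv a := by
    apply Subtype.ext
    have h1 := (apex_left hG hv a.2).choose_spec
    have h2 := (apex_right hG hv h1.ed_ac).choose_spec
    exact right_unique h2 h1
  right_inv a := by
    apply Subtype.ext
    have h1 := (apex_right hG hv a.2).choose_spec
    have h2 := (apex_left hG hv h1.ed).choose_spec
    exact left_unique h2 h1

theorem sig_spec (hG : Gen P g) (hv : ¬ Hull P v) (a : {a // Ed P g v a}) :
    Tr P g v a.1 (sig hG hv a).1 :=
  (apex_left hG hv a.2).choose_spec

/-- empty on the left: at most one such edge starts at a given point -/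
theorem empty_unique (hP : NonCol P) (h1 : Ed P g v a) (h2 : Ed P g v b)
    (e1 : ∀ p ∈ P, D v a p ≤ 0) (e2 : ∀ p ∈ P, D v b p ≤ 0) : a = b := by
  by_contra hab
  obtain ⟨hv, ha, hva, l, l1, l2, l3⟩ := h1
  obtain ⟨-, hb, hvb, l', l1', l2', l3'⟩ := h2
  have h0 : D v a b = 0 := by
    have := e1 b hb
    have h4 := e2 a ha
    rw [D_swap'] at h4
    linarith
  -- `b = v + t (a - v)`
  obtain ⟨t, ht1, ht2⟩ : ∃ t : ℝ, b.1 - v.1 = t * (a.1 - v.1) ∧ b.2 - v.2 = t * (a.2 - v.2) := by
    unfold D at h0
    by_cases hx : a.1 - v.1 = 0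
    · have hy : a.2 - v.2 ≠ 0 := by
        intro hy
        exact hva (Prod.ext (by linarith) (by linarith))
      refine ⟨(b.2 - v.2) / (a.2 - v.2), ?_, by field_simp⟩
      rw [hx] at h0 ⊢
      have h5 : (a.2 - v.2) * (b.1 - v.1) = 0 := by linarith
      rcases mul_eq_zero.1 h5 with h6 | h6
      · exact absurd h6 hy
      · rw [h6]; ring
    · refine ⟨(b.1 - v.1) / (a.1 - v.1), by field_simp, ?_⟩
      rw [div_mul_eq_mul_div, eq_div_iff hx]
      linarith
  have hDt : ∀ p, D v b p = t * D v a p := by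
    intro p
    unfold D
    rw [ht1, ht2]; ring
  have ht0 : t ≠ 0 := by
    rintro rfl
    exact hvb (Prod.ext (by linarith) (by linarith))
  rcases lt_or_gt_of_ne ht0 with htn | htp
  · -- all points are on the line
    have hz : ∀ p ∈ P, D v a p = 0 := by
      intro p hp
      have h5 := e2 p hp
      rw [hDt] at h5
      have h6 := e1 p hp
      nlinarith
    obtain ⟨x, hx, y, hy, z, hz', hne⟩ := hP
    apply hne
    have hx0 := hz x hx
    have hy0 := hz y hy
    have hz0 := hz z hz'
    unfold D at hx0 hy0 hz0 ⊢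
    by_cases hc1 : a.1 - v.1 = 0
    · have hc2 : a.2 - v.2 ≠ 0 := by
        intro hc2
        exact hva (Prod.ext (by linarith) (by linarith))
      rw [hc1] at hx0 hy0 hz0
      have q1 : x.1 - v.1 = 0 := by
        rcases mul_eq_zero.1 (show (a.2 - v.2) * (x.1 - v.1) = 0 by linarith) with q | q
        · exact absurd q hc2
        · exact q
      have q2 : y.1 - v.1 = 0 := by
        rcases mul_eq_zero.1 (show (a.2 - v.2) * (y.1 - v.1) = 0 by linarith) with q | q
        · exact absurd q hc2
        · exact q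
      have q3 : z.1 - v.1 = 0 := by
        rcases mul_eq_zero.1 (show (a.2 - v.2) * (z.1 - v.1) = 0 by linarith) with q | q
        · exact absurd q hc2
        · exact q
      have q4 : y.1 - x.1 = 0 := by linarith
      have q5 : z.1 - x.1 = 0 := by linarith
      rw [q4, q5]; ring
    · have q1 : (a.1 - v.1) * ((y.1 - x.1) * (z.2 - x.2) - (y.2 - x.2) * (z.1 - x.1)) = 0 := by
        have r1 : (a.1 - v.1) * (z.2 - x.2) = (a.2 - v.2) * (z.1 - x.1) := by linarith
        have r2 : (a.1 - v.1) * (y.2 - x.2) = (a.2 - v.2) * (y.1 - x.1) := by linarith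
        calc (a.1 - v.1) * ((y.1 - x.1) * (z.2 - x.2) - (y.2 - x.2) * (z.1 - x.1))
            = (y.1 - x.1) * ((a.1 - v.1) * (z.2 - x.2)) -
              ((a.1 - v.1) * (y.2 - x.2)) * (z.1 - x.1) := by ring
          _ = 0 := by rw [r1, r2]; ring
      rcases mul_eq_zero.1 q1 with q | q
      · exact absurd q hc1
      · exact q
  · -- `a` and `b` on the same side of `v`
    have s1 := l3 b hb hvb.symm (Ne.symm hab)
    have s2 := l3' a ha hva.symm hab
    have e3 : af (l' - l) b = t * af (l' - l) a := by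
      have e4 : af (l' - l) v = 0 := by rw [af_sub, l1, l1']; ring
      unfold af at e4 ⊢
      have hb1 : b.1 = v.1 + t * (a.1 - v.1) := by linarith
      have hb2 : b.2 = v.2 + t * (a.2 - v.2) := by linarith
      rw [hb1, hb2]
      linear_combination (1 - t) * e4
    rw [af_sub, af_sub, l2, l2'] at e3
    have e5 : 0 < t * (af l' a - g a) := mul_pos htp (by linarith)
    linarith

/-- a point with an edge whose left side is empty lies on the boundary of the hull -/
theorem hull_of_empty (h : Ed P g v a) (e : ∀ p ∈ P, D v a p ≤ 0) : Hull P v := by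
  by_contra hv
  obtain ⟨p, hp, hp'⟩ := left_of_inner hv h
  exact absurd (e p hp) (not_le.2 hp')

end Pool.Agent.PNY
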