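import Mathlib

/-!
MP_45fc25_co, cell A: regular triangulations of a finite set of points of the plane.

`g` gives a height to every point.  A pair of points is an edge when some affine function
touches the heights at these two points and is strictly above at all other points; a
counterclockwise triple is a triangle when the same holds for its three points.
-/

namespace Pool.Agent.PNY

/-- twice the signed area of the triangle `a b c`: positive iff `c` is strictly left of `(a, b)` -/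
def D (a b c : ℝ × ℝ) : ℝ := (b.1 - a.1) * (c.2 - a.2) - (b.2 - a.2) * (c.1 - a.1)

/-- the affine function `l.1 + l.2.1 x + l.2.2 y` -/
def af (l : ℝ × ℝ × ℝ) (p : ℝ × ℝ) : ℝ := l.1 + l.2.1 * p.1 + l.2.2 * p.2

/-- `a b` is an edge of the regular triangulation of `P` with heights `g` -/
def Ed (P : Finset (ℝ × ℝ)) (g : ℝ × ℝ → ℝ) (a b : ℝ × ℝ) : Prop :=
  a ∈ P ∧ b ∈ P ∧ a ≠ b ∧ ∃ l, af l a = g a ∧ af l b = g b ∧
    ∀ p ∈ P, p ≠ a → p ≠ b → g p < af l p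

/-- `a b c` is a (counterclockwise) triangle of the regular triangulation -/
def Tr (P : Finset (ℝ × ℝ)) (g : ℝ × ℝ → ℝ) (a b c : ℝ × ℝ) : Prop :=
  a ∈ P ∧ b ∈ P ∧ c ∈ P ∧ 0 < D a b c ∧ ∃ l, af l a = g a ∧ af l b = g b ∧ af l c = g c ∧
    ∀ p ∈ P, p ≠ a → p ≠ b → p ≠ c → g p < af l p

/-- no four lifted points are coplanar unless three of them, below, are collinear -/
def Gen (P : Finset (ℝ × ℝ)) (g : ℝ × ℝ → ℝ) : Prop :=
  ∀ a ∈ P, ∀ b ∈ P, ∀ c ∈ P, ∀ p ∈ P, p ≠ a → p ≠ b → p ≠ c → D a b c ≠ 0 →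
    ∀ l, af l a = g a → af l b = g b → af l c = g c → af l p ≠ g p

/-- `v` lies on the boundary of the convex hull of `P` -/
def Hull (P : Finset (ℝ × ℝ)) (v : ℝ × ℝ) : Prop :=
  v ∈ P ∧ ∃ l : ℝ × ℝ × ℝ, (l.2.1 ≠ 0 ∨ l.2.2 ≠ 0) ∧ af l v = 0 ∧ ∀ p ∈ P, 0 ≤ af l p

/-- `P` is not contained in a line -/
def NonCol (P : Finset (ℝ × ℝ)) : Prop :=
  ∃ a ∈ P, ∃ b ∈ P, ∃ c ∈ P, D a b c ≠ 0

theorem D_rot (a b c : ℝ × ℝ) : D b c a = D a b c := by unfold D; ring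

theorem D_swap (a b c : ℝ × ℝ) : D b a c = - D a b c := by unfold D; ring

theorem D_swap' (a b c : ℝ × ℝ) : D a c b = - D a b c := by unfold D; ring

theorem D_self (a b : ℝ × ℝ) : D a b a = 0 := by unfold D; ring

theorem D_self' (a b : ℝ × ℝ) : D a b b = 0 := by unfold D; ring

theorem D_self'' (a b : ℝ × ℝ) : D a a b = 0 := by unfold D; ring

/-- `s * D a b .` as an affine function -/
def afD (s : ℝ) (a b : ℝ × ℝ) : ℝ × ℝ × ℝ :=
  (s * (-(b.1 - a.1) * a.2 + (b.2 - a.2) * a.1), -s * (b.2 - a.2), s * (b.1 - a.1))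

theorem af_afD (s : ℝ) (a b p : ℝ × ℝ) : af (afD s a b) p = s * D a b p := by
  unfold af afD D; ring

theorem af_add (l m : ℝ × ℝ × ℝ) (p : ℝ × ℝ) : af (l + m) p = af l p + af m p := by
  unfold af; simp only [Prod.fst_add, Prod.snd_add]; ring

theorem af_sub (l m : ℝ × ℝ × ℝ) (p : ℝ × ℝ) : af (l - m) p = af l p - af m p := by
  unfold af; simp only [Prod.fst_sub, Prod.snd_sub]; ring

theorem af_smul (s : ℝ) (l : ℝ × ℝ × ℝ) (p : ℝ × ℝ) : af (s • l) p = s * af l p := by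
  unfold af; simp only [Prod.smul_fst, Prod.smul_snd, smul_eq_mul]; ring

theorem Ed.symm {P : Finset (ℝ × ℝ)} {g : ℝ × ℝ → ℝ} {a b : ℝ × ℝ} (h : Ed P g a b) :
    Ed P g b a := by
  obtain ⟨ha, hb, hab, l, h1, h2, h3⟩ := h
  exact ⟨hb, ha, hab.symm, l, h2, h1, fun p hp h4 h5 => h3 p hp h5 h4⟩

theorem Tr.rot {P : Finset (ℝ × ℝ)} {g : ℝ × ℝ → ℝ} {a b c : ℝ × ℝ} (h : Tr P g a b c) :
    Tr P g b c a := by
  obtain ⟨ha, hb, hc, hD, l, h1, h2, h3, h4⟩ := h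
  exact ⟨hb, hc, ha, by rw [D_rot]; exact hD, l, h2, h3, h1,
    fun p hp h5 h6 h7 => h4 p hp h7 h5 h6⟩

end Pool.Agent.PNY
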